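import Mathlib

/-!
# Block C of LT: integrality (piece LCD)
-/

namespace Pool.Agent.Helper29.LC

open Polynomial

section gauss

variable {K : Type} [Field K] {Γ : Type} [LinearOrderedCommGroupWithZero Γ] (v : Valuation K Γ)

theorem int_of_val (x : K) (h : ∀ V : ValuationSubring K, x ∈ V) : IsIntegral ℤ x := by
  by_contra hx
  have h1 : x ∉ (integralClosure ℤ K).toSubring := fun h1 => hx h1
  have : IsIntegrallyClosedIn (integralClosure ℤ K).toSubring K :=
    inferInstanceAs (IsIntegrallyClosedIn (integralClosure ℤ K) K)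
  obtain ⟨V, -, hV⟩ := Subring.exists_le_valuationSubring_of_isIntegrallyClosedIn h1
  exact hV (h V)

theorem gauss_step (g : K[X]) (α : K) (c : Γ)
    (h : ∀ k, v (((X - C α) * g).coeff k) ≤ c) (k : ℕ) : v (g.coeff k) * max 1 (v α) ≤ c := by
  have h0 : v (α * g.coeff 0) ≤ c := by
    have := h 0
    rw [mul_coeff_zero, coeff_sub, coeff_X_zero, coeff_C_zero, zero_sub, neg_mul,
      Valuation.map_neg] at this
    exact this
  have hs : ∀ k, v (g.coeff k - α * g.coeff (k + 1)) ≤ c := by
    intro k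
    have := h (k + 1)
    rw [sub_mul, coeff_sub, coeff_X_mul, coeff_C_mul] at this
    exact this
  rcases le_total (v α) 1 with ha | ha
  · rw [max_eq_left ha, mul_one]
    -- downward induction
    have key : ∀ m k, g.natDegree < k + m → v (g.coeff k) ≤ c := by
      intro m
      induction m with
      | zero =>
        intro k hk
        rw [coeff_eq_zero_of_natDegree_lt (by omega), map_zero]
        exact zero_le
      | succ m ih =>
        intro k hk
        have h1 := ih (k + 1) (by omega)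
        have h2 : g.coeff k = (g.coeff k - α * g.coeff (k + 1)) + α * g.coeff (k + 1) := by ring
        rw [h2]
        refine v.map_add_le (hs k) ?_
        rw [map_mul]
        calc v α * v (g.coeff (k + 1)) ≤ 1 * c := mul_le_mul' ha h1
          _ = c := one_mul c
    exact key (g.natDegree + 1) k (by omega)
  · rw [max_eq_right ha]
    induction k with
    | zero =>
      rw [map_mul] at h0
      rwa [mul_comm]
    | succ k ih =>
      have h1 : v (g.coeff k) ≤ c := by
        calc v (g.coeff k) = v (g.coeff k) * 1 := (mul_one _).symm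
          _ ≤ v (g.coeff k) * v α := mul_le_mul_right ha _
          _ ≤ c := ih
      have h2 : v (α * g.coeff (k + 1)) ≤ c := by
        have h3 : α * g.coeff (k + 1) = g.coeff k - (g.coeff k - α * g.coeff (k + 1)) := by ring
        rw [h3]
        exact v.map_sub_le h1 (hs k)
      rw [map_mul] at h2
      rwa [mul_comm]

theorem gauss {J : Type} (s : Finset J) (α : J → K) (a : K) (c : Γ)
    (h : ∀ k, v ((C a * ∏ j ∈ s, (X - C (α j))).coeff k) ≤ c) :
    v a * ∏ j ∈ s, max 1 (v (α j)) ≤ c := by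
  classical
  induction s using Finset.induction_on generalizing c with
  | empty =>
    have := h 0
    simpa using this
  | insert j s hj ih =>
    have hpos : (0 : Γ) < max 1 (v (α j)) := lt_of_lt_of_le zero_lt_one (le_max_left _ _)
    rw [Finset.prod_insert hj]
    have h1 : ∀ k, v ((C a * ∏ j ∈ s, (X - C (α j))).coeff k) ≤ c * (max 1 (v (α j)))⁻¹ := by
      intro k
      rw [← div_eq_mul_inv, le_div_iff₀ hpos]
      apply gauss_step
      intro k
      have h2 := h k
      rw [Finset.prod_insert hj] at h2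
      have h3 : C a * ((X - C (α j)) * ∏ j ∈ s, (X - C (α j))) =
          (X - C (α j)) * (C a * ∏ j ∈ s, (X - C (α j))) := by ring
      rwa [h3] at h2
    have h4 := ih _ h1
    rw [← div_eq_mul_inv, le_div_iff₀ hpos] at h4
    calc v a * (max 1 (v (α j)) * ∏ j ∈ s, max 1 (v (α j)))
        = v a * (∏ j ∈ s, max 1 (v (α j))) * max 1 (v (α j)) := by
          rw [mul_assoc, mul_comm (max 1 (v (α j)))]
      _ ≤ c := h4

/-- The value of `c ^ D * Q (x, y)`. -/
theorem val_Q (v : Valuation K Γ) (hZ : ∀ n : ℤ, v (n : K) ≤ 1)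
    (Q : MvPolynomial (Fin 2) ℤ) (D : ℕ) (hQ : Q.totalDegree ≤ D) (c : ℤ) (x : Fin 2 → K)
    (M : Γ) (hM : 1 ≤ M) (hx : ∀ i, v ((c : K) * x i) ≤ M) :
    v ((c : K) ^ D * MvPolynomial.aeval x Q) ≤ M ^ D := by
  rw [MvPolynomial.aeval_def, MvPolynomial.eval₂_eq', Finset.mul_sum]
  refine Valuation.map_sum_le v fun m hm => ?_
  have hdeg : m 0 + m 1 ≤ D := by
    have h1 := MvPolynomial.le_totalDegree hm
    have h2 : (m.sum fun _ e => e) = m 0 + m 1 := by
      rw [Finsupp.sum_fintype _ _ (fun _ => rfl), Fin.sum_univ_two]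
    omega
  obtain ⟨e, he⟩ : ∃ e, D = e + (m 0 + m 1) := ⟨D - (m 0 + m 1), by omega⟩
  have h1 : (c : K) ^ D * ((algebraMap ℤ K) (MvPolynomial.coeff m Q) * ∏ i, x i ^ m i) =
      ((c ^ e * MvPolynomial.coeff m Q : ℤ) : K) * (((c : K) * x 0) ^ m 0 *
        ((c : K) * x 1) ^ m 1) := by
    rw [Fin.prod_univ_two, he, pow_add, pow_add, mul_pow, mul_pow, eq_intCast]
    push_cast
    ring
  rw [h1, map_mul, map_mul, map_pow, map_pow]
  calc v ((c ^ e * MvPolynomial.coeff m Q : ℤ) : K) *
        (v ((c : K) * x 0) ^ m 0 * v ((c : K) * x 1) ^ m 1)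
      ≤ 1 * (M ^ m 0 * M ^ m 1) := by
        refine mul_le_mul' (hZ _) (mul_le_mul' ?_ ?_)
        · exact pow_le_pow_left₀ zero_le (hx 0) _
        · exact pow_le_pow_left₀ zero_le (hx 1) _
    _ = M ^ (m 0 + m 1) := by rw [one_mul, pow_add]
    _ ≤ M ^ D := pow_le_pow_right₀ hM hdeg

end gauss

theorem galQ : IsGalois ℚ (AlgebraicClosure ℚ) := by
  have h1 : (AlgebraicClosure.instAlgebra ℚ : Algebra ℚ (AlgebraicClosure ℚ)) =
      DivisionRing.toRatAlgebra := Subsingleton.elim _ _
  have h2 : @IsGalois ℚ _ (AlgebraicClosure ℚ) _ (AlgebraicClosure.instAlgebra ℚ) :=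
    @IsAlgClosure.isGalois ℚ (AlgebraicClosure ℚ) _ _ (AlgebraicClosure.instAlgebra ℚ)
      inferInstance inferInstance
  rw [h1] at h2
  exact h2

/-- The root multiset of a product of linear factors with rational coefficients is stable. -/
theorem stab {n : ℕ} (F : (Polynomial (Polynomial ℤ)))
    (lc : Polynomial (AlgebraicClosure ℚ)) (hlc : lc ≠ 0)
    (hlc2 : ∃ p : Polynomial ℤ, lc = p.map (Int.castRingHom (AlgebraicClosure ℚ)))
    (r : Fin n → Fin 2 → AlgebraicClosure ℚ)
    (hr : F.map (mapRingHom (Int.castRingHom (AlgebraicClosure ℚ))) =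
      C lc * ∏ j, (X - C (C (r j 0) + C (r j 1) * X)))
    (σ : AlgebraicClosure ℚ ≃ₐ[ℚ] AlgebraicClosure ℚ)
    (f : (Fin 2 → AlgebraicClosure ℚ) → AlgebraicClosure ℚ) :
    ∏ j, f (fun i => σ (r j i)) = ∏ j, f (r j) := by
  classical
  let s : AlgebraicClosure ℚ →+* AlgebraicClosure ℚ := (σ : AlgebraicClosure ℚ →+* _)
  -- apply `σ` to the coefficients
  have h1 : (F.map (mapRingHom (Int.castRingHom (AlgebraicClosure ℚ)))).map (mapRingHom s) =
      F.map (mapRingHom (Int.castRingHom (AlgebraicClosure ℚ))) := by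
    rw [Polynomial.map_map]
    congr 1
    apply RingHom.ext
    intro p
    rw [RingHom.comp_apply, coe_mapRingHom, coe_mapRingHom, Polynomial.map_map]
    congr 1
    exact RingHom.ext_int _ _
  rw [hr] at h1
  have h2 : (mapRingHom s) lc = lc := by
    obtain ⟨p, hp⟩ := hlc2
    rw [hp, coe_mapRingHom, Polynomial.map_map]
    congr 1
    exact RingHom.ext_int _ _
  rw [Polynomial.map_mul, map_C, h2, Polynomial.map_prod] at h1
  have h3 := mul_left_cancel₀ (C_ne_zero.2 hlc) h1
  have h4 : ∀ j, (X - C (C (r j 0) + C (r j 1) * X) :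
      Polynomial (Polynomial (AlgebraicClosure ℚ))).map (mapRingHom s) =
      X - C (C (σ (r j 0)) + C (σ (r j 1)) * X) := by
    intro j
    rw [Polynomial.map_sub, map_X, map_C, coe_mapRingHom, Polynomial.map_add, Polynomial.map_mul,
      map_C, map_C, map_X]
    rfl
  rw [Finset.prod_congr rfl fun j _ => h4 j] at h3
  -- the multisets of roots
  have h5 : (Finset.univ.val.map fun j : Fin n => (C (σ (r j 0)) + C (σ (r j 1)) * X :
      Polynomial (AlgebraicClosure ℚ))) =
      Finset.univ.val.map fun j : Fin n => (C (r j 0) + C (r j 1) * X) := by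
    have h6 := congrArg roots h3
    have h7 : ∀ g : Fin n → Polynomial (AlgebraicClosure ℚ),
        (∏ j, (X - C (g j))).roots = Finset.univ.val.map g := by
      intro g
      have := roots_multiset_prod_X_sub_C (Finset.univ.val.map g)
      rw [Multiset.map_map] at this
      exact this
    rw [h7, h7] at h6
    exact h6
  have h8 := congrArg (fun m : Multiset (Polynomial (AlgebraicClosure ℚ)) =>
    (m.map fun p => f ![p.coeff 0, p.coeff 1]).prod) h5
  simp only [Multiset.map_map] at h8
  have h9 : ∀ a b : AlgebraicClosure ℚ, (C a + C b * X : Polynomial (AlgebraicClosure ℚ)).coeff 0 =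
      a ∧ (C a + C b * X : Polynomial (AlgebraicClosure ℚ)).coeff 1 = b := by
    intro a b
    constructor <;> simp [coeff_C]
  have h10 : ∀ x : Fin 2 → AlgebraicClosure ℚ, ![x 0, x 1] = x := by
    intro x
    funext i
    fin_cases i <;> rfl
  have e1 : (fun j : Fin n => f (fun i => σ (r j i))) =
      ((fun p : Polynomial (AlgebraicClosure ℚ) => f ![p.coeff 0, p.coeff 1]) ∘
        fun j : Fin n => (C (σ (r j 0)) + C (σ (r j 1)) * X)) := by
    funext j
    simp only [Function.comp, (h9 _ _).1, (h9 _ _).2]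
    congr 1
    exact (h10 (fun i => σ (r j i))).symm
  have e2 : (fun j : Fin n => f (r j)) =
      ((fun p : Polynomial (AlgebraicClosure ℚ) => f ![p.coeff 0, p.coeff 1]) ∘
        fun j : Fin n => (C (r j 0) + C (r j 1) * X)) := by
    funext j
    simp only [Function.comp, (h9 _ _).1, (h9 _ _).2]
    congr 1
    exact (h10 (r j)).symm
  show (Finset.univ.val.map fun j : Fin n => f (fun i => σ (r j i))).prod =
    (Finset.univ.val.map fun j : Fin n => f (r j)).prod
  rw [e1, e2]
  exact h8

theorem prod_int (F : ℤ[X][X]) (hF : F ≠ 0)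
    (r : Fin F.natDegree → Fin 2 → AlgebraicClosure ℚ)
    (hr : F.map (mapRingHom (Int.castRingHom (AlgebraicClosure ℚ))) =
      C (F.leadingCoeff.map (Int.castRingHom (AlgebraicClosure ℚ))) *
          ∏ j, (X - C (C (r j 0) + C (r j 1) * X)))
    (h₁ h₂ : ℤ) (Q : MvPolynomial (Fin 2) ℤ) (D : ℕ) (hQ : Q.totalDegree ≤ D)
    (hh : h₁ ≠ h₂) :
    ∃ N : ℤ, (N : AlgebraicClosure ℚ) =
      (((F.leadingCoeff.eval h₁ * F.leadingCoeff.eval h₂ : ℤ)) : AlgebraicClosure ℚ) ^ D *
        ∏ j, (((h₁ - h₂ : ℤ) : AlgebraicClosure ℚ) ^ D * MvPolynomial.aeval (r j) Q) := by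
  classical
  have hlc0 : F.leadingCoeff.map (Int.castRingHom (AlgebraicClosure ℚ)) ≠ 0 := by
    rw [Ne, Polynomial.map_eq_zero_iff (Int.cast_injective)]
    exact leadingCoeff_ne_zero.2 hF
  set T : AlgebraicClosure ℚ :=
    ∏ j, (((h₁ - h₂ : ℤ) : AlgebraicClosure ℚ) ^ D * MvPolynomial.aeval (r j) Q) with hT
  -- rational
  have hrat : ∃ q : ℚ, algebraMap ℚ (AlgebraicClosure ℚ) q = T := by
    have h1 : T ∈ (⊥ : IntermediateField ℚ (AlgebraicClosure ℚ)) := by
      have := galQ
      rw [InfiniteGalois.mem_bot_iff_fixed]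
      intro σ
      rw [hT, map_prod]
      have h2 : ∀ j, σ (((h₁ - h₂ : ℤ) : AlgebraicClosure ℚ) ^ D *
          MvPolynomial.aeval (r j) Q) =
          (fun x : Fin 2 → AlgebraicClosure ℚ => ((h₁ - h₂ : ℤ) : AlgebraicClosure ℚ) ^ D *
            MvPolynomial.aeval x Q) (fun i => σ (r j i)) := by
        intro j
        show _ = ((h₁ - h₂ : ℤ) : AlgebraicClosure ℚ) ^ D * MvPolynomial.aeval
          (fun i => σ (r j i)) Q
        rw [map_mul, map_pow, map_intCast]
        congr 1
        have h3 : (MvPolynomial.aeval fun i => σ (r j i) :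
            MvPolynomial (Fin 2) ℤ →ₐ[ℤ] AlgebraicClosure ℚ) =
            ((σ : AlgebraicClosure ℚ →ₐ[ℚ] AlgebraicClosure ℚ).restrictScalars ℤ).comp
              (MvPolynomial.aeval (r j)) := by
          apply MvPolynomial.algHom_ext
          intro i
          simp
        rw [h3]
        rfl
      rw [Finset.prod_congr rfl fun j _ => h2 j]
      exact stab F _ hlc0 ⟨_, rfl⟩ r hr σ (fun x : Fin 2 → AlgebraicClosure ℚ =>
        ((h₁ - h₂ : ℤ) : AlgebraicClosure ℚ) ^ D * MvPolynomial.aeval x Q)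
    rw [IntermediateField.mem_bot] at h1
    exact h1
  obtain ⟨q, hq⟩ := hrat
  -- integral
  have hint : IsIntegral ℤ ((((F.leadingCoeff.eval h₁ * F.leadingCoeff.eval h₂ : ℤ)) :
      AlgebraicClosure ℚ) ^ D * T) := by
    apply int_of_val
    intro V
    rw [← V.valuation_le_one_iff]
    set v := V.valuation with hv
    have hZ : ∀ n : ℤ, v (n : AlgebraicClosure ℚ) ≤ 1 := by
      intro n
      rw [hv, V.valuation_le_one_iff]
      exact intCast_mem V n
    have hev : ∀ h : ℤ, ∀ k, v ((C ((F.leadingCoeff.eval h : ℤ) : AlgebraicClosure ℚ) *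
        ∏ j, (X - C (r j 0 + r j 1 * (h : AlgebraicClosure ℚ)))).coeff k) ≤ 1 := by
      intro h k
      have h1 := congrArg (Polynomial.map (evalRingHom (h : AlgebraicClosure ℚ))) hr
      rw [Polynomial.map_map, Polynomial.map_mul, map_C, Polynomial.map_prod] at h1
      have h2 : (evalRingHom (h : AlgebraicClosure ℚ)).comp
          (mapRingHom (Int.castRingHom (AlgebraicClosure ℚ))) =
          (Int.castRingHom (AlgebraicClosure ℚ)).comp (evalRingHom h) := by
        apply Polynomial.ringHom_ext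
        · intro a
          simp
        · simp
      have h3 : ∀ j, (X - C (C (r j 0) + C (r j 1) * X) :
          Polynomial (Polynomial (AlgebraicClosure ℚ))).map
            (evalRingHom (h : AlgebraicClosure ℚ)) =
          X - C (r j 0 + r j 1 * (h : AlgebraicClosure ℚ)) := by
        intro j
        rw [Polynomial.map_sub, map_X, map_C, coe_evalRingHom, eval_add, eval_mul, eval_C, eval_C,
          eval_X]
      rw [Finset.prod_congr rfl fun j _ => h3 j, h2] at h1
      have h4 : (evalRingHom (h : AlgebraicClosure ℚ))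
          (F.leadingCoeff.map (Int.castRingHom (AlgebraicClosure ℚ))) =
          ((F.leadingCoeff.eval h : ℤ) : AlgebraicClosure ℚ) := by
        rw [coe_evalRingHom]
        have := eval_intCast_map (Int.castRingHom (AlgebraicClosure ℚ)) F.leadingCoeff h
        rw [this]
        rfl
      rw [h4] at h1
      rw [← h1, coeff_map, RingHom.comp_apply]
      exact hZ _
    have hg : ∀ h : ℤ, v ((F.leadingCoeff.eval h : ℤ) : AlgebraicClosure ℚ) *
        ∏ j, max 1 (v (r j 0 + r j 1 * (h : AlgebraicClosure ℚ))) ≤ 1 :=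
      fun h => gauss v Finset.univ _ _ _ (hev h)
    set c : ℤ := h₁ - h₂ with hc
    have hj : ∀ j, v ((c : AlgebraicClosure ℚ) ^ D * MvPolynomial.aeval (r j) Q) ≤
        (max 1 (v (r j 0 + r j 1 * (h₁ : AlgebraicClosure ℚ))) *
          max 1 (v (r j 0 + r j 1 * (h₂ : AlgebraicClosure ℚ)))) ^ D := by
      intro j
      set α := r j 0 + r j 1 * (h₁ : AlgebraicClosure ℚ) with hα
      set β := r j 0 + r j 1 * (h₂ : AlgebraicClosure ℚ) with hβ
      have m1 : (1 : V.ValueGroup) ≤ max 1 (v α) := le_max_left _ _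
      have m2 : (1 : V.ValueGroup) ≤ max 1 (v β) := le_max_left _ _
      have a1 : v α ≤ max 1 (v α) * max 1 (v β) := by
        calc v α ≤ max 1 (v α) * 1 := by rw [mul_one]; exact le_max_right _ _
          _ ≤ _ := mul_le_mul_right m2 _
      have a2 : v β ≤ max 1 (v α) * max 1 (v β) := by
        calc v β ≤ 1 * max 1 (v β) := by rw [one_mul]; exact le_max_right _ _
          _ ≤ _ := mul_le_mul_left m1 _
      refine val_Q v hZ Q D hQ c (r j) _ ?_ ?_
      · calc (1 : V.ValueGroup) = 1 * 1 := (one_mul _).symm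
          _ ≤ _ := mul_le_mul' m1 m2
      · intro i
        fin_cases i
        · have e : (c : AlgebraicClosure ℚ) * r j 0 = (h₁ : AlgebraicClosure ℚ) * β -
              (h₂ : AlgebraicClosure ℚ) * α := by
            rw [hα, hβ, hc]
            push_cast
            ring
          show v ((c : AlgebraicClosure ℚ) * r j 0) ≤ _
          rw [e]
          refine v.map_sub_le ?_ ?_
          · rw [map_mul]
            calc v (h₁ : AlgebraicClosure ℚ) * v β ≤ 1 * v β := mul_le_mul_left (hZ _) _
              _ ≤ _ := by rw [one_mul]; exact a2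
          · rw [map_mul]
            calc v (h₂ : AlgebraicClosure ℚ) * v α ≤ 1 * v α := mul_le_mul_left (hZ _) _
              _ ≤ _ := by rw [one_mul]; exact a1
        · have e : (c : AlgebraicClosure ℚ) * r j 1 = α - β := by
            rw [hα, hβ, hc]
            push_cast
            ring
          show v ((c : AlgebraicClosure ℚ) * r j 1) ≤ _
          rw [e]
          exact v.map_sub_le a1 a2
    have g1 := hg h₁
    have g2 := hg h₂
    rw [map_mul, map_pow, Int.cast_mul, map_mul, hT, map_prod]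
    calc (v ((F.leadingCoeff.eval h₁ : ℤ) : AlgebraicClosure ℚ) *
          v ((F.leadingCoeff.eval h₂ : ℤ) : AlgebraicClosure ℚ)) ^ D *
          ∏ j, v ((c : AlgebraicClosure ℚ) ^ D * MvPolynomial.aeval (r j) Q)
        ≤ (v ((F.leadingCoeff.eval h₁ : ℤ) : AlgebraicClosure ℚ) *
          v ((F.leadingCoeff.eval h₂ : ℤ) : AlgebraicClosure ℚ)) ^ D *
          ∏ j, (max 1 (v (r j 0 + r j 1 * (h₁ : AlgebraicClosure ℚ))) *
            max 1 (v (r j 0 + r j 1 * (h₂ : AlgebraicClosure ℚ)))) ^ D :=
          mul_le_mul_right (Finset.prod_le_prod' fun j _ => hj j) _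
      _ = ((v ((F.leadingCoeff.eval h₁ : ℤ) : AlgebraicClosure ℚ) *
          ∏ j, max 1 (v (r j 0 + r j 1 * (h₁ : AlgebraicClosure ℚ)))) *
          (v ((F.leadingCoeff.eval h₂ : ℤ) : AlgebraicClosure ℚ) *
          ∏ j, max 1 (v (r j 0 + r j 1 * (h₂ : AlgebraicClosure ℚ))))) ^ D := by
          rw [Finset.prod_pow, Finset.prod_mul_distrib, ← mul_pow]
          congr 1
          exact mul_mul_mul_comm _ _ _ _
      _ ≤ 1 := pow_le_one₀ zero_le (mul_le_one' g1 g2)
  -- conclusion
  have hqi : IsIntegral ℤ ((((F.leadingCoeff.eval h₁ * F.leadingCoeff.eval h₂ : ℤ)) : ℚ) ^ D *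
      q) := by
    have h1 : algebraMap ℚ (AlgebraicClosure ℚ)
        ((((F.leadingCoeff.eval h₁ * F.leadingCoeff.eval h₂ : ℤ)) : ℚ) ^ D * q) =
        ((((F.leadingCoeff.eval h₁ * F.leadingCoeff.eval h₂ : ℤ)) :
      AlgebraicClosure ℚ) ^ D * T) := by
      rw [map_mul, hq, map_pow, map_intCast]
    rw [← h1] at hint
    exact (isIntegral_algebraMap_iff (algebraMap ℚ (AlgebraicClosure ℚ)).injective).1 hint
  obtain ⟨N, hN⟩ := IsIntegrallyClosed.isIntegral_iff.1 hqi
  refine ⟨N, ?_⟩
  have h1 := congrArg (algebraMap ℚ (AlgebraicClosure ℚ)) hN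
  rw [map_mul, hq, map_pow, map_intCast] at h1
  rw [← h1]
  simp

end Pool.Agent.Helper29.LC
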